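import Pool.Agent.H29.LA.Targets
import Pool.Agent.H27.LG.NT2

/-! Points near a zero of a morphism are not torsion (MP_6b5a9a_nt). -/

set_option autoImplicit false

open AlgebraicGeometry CategoryTheory
open scoped MonObj TensorProduct
open Pool.H27.LG
open Pool.Agent.H29.LA

noncomputable section

namespace Pool.Agent.H86.LA

theorem ntr_aux {F Ω : Type} [Field F] [Field Ω] [Algebra F Ω] {Γ₀ : Type}
    [LinearOrderedCommGroupWithZero Γ₀] (v : Valuation Ω Γ₀) (A : Over (Spec (.of F)))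
    [GrpObj A] [IsSeparated A.hom] [LocallyOfFiniteType A.hom] {R : Type} [CommRing R]
    [IsDomain R] [Algebra Ω R] [Algebra F R] [IsScalarTower F Ω R] {J : Type} [Finite J]
    (w : J → R) (g₁ : R) (φ₀ : R →ₐ[Ω] Ω) (D : SO F (Localization.Away g₁) ⟶ A)
    (hfin : ∀ p : ℕ, p.Prime → (p : Ω) = 0 → {P : SO F Ω ⟶ A | P ^ p = 1}.Finite)
    (hadj : Algebra.adjoin Ω (Set.range w) = ⊤) (hw0 : ∀ i, φ₀ (w i) = 0) (hg₁ : φ₀ g₁ ≠ 0)
    (h0 : ∀ θ : Localization.Away g₁ →ₐ[F] Ω,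
      (∀ r, θ (algebraMap R (Localization.Away g₁) r) = φ₀ r) → SOm θ ≫ D = 1)
    (h1 : D ≠ 1) :
    ∃ (d : Ω) (a : R), d ≠ 0 ∧ a ≠ 0 ∧ ∀ φ : R →ₐ[Ω] Ω, (∀ i, v (φ (w i)) < v d) → φ a ≠ 0 →
      ∀ θ : Localization.Away g₁ →ₐ[F] Ω,
        (∀ r, θ (algebraMap R (Localization.Away g₁) r) = φ r) →
        ∀ N : ℕ, N ≠ 0 → (SOm θ ≫ D) ^ N ≠ 1 := by
  classical
  obtain ⟨B, _, _, j, ε, I, _, u, hji, hj, hu, hε⟩ := exists_chart_one A
  obtain ⟨d, hd, hnear⟩ := near_one v j ε hj u hu hε hfin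
  have hlift : ∀ φ : R →ₐ[Ω] Ω, φ g₁ ≠ 0 → ∃ θ : Localization.Away g₁ →ₐ[F] Ω,
      θ.comp (IsScalarTower.toAlgHom F R (Localization.Away g₁)) = φ.restrictScalars F :=
    fun φ hφ => ext_away g₁ (φ.restrictScalars F) (Ne.isUnit hφ)
  obtain ⟨θ₀, hθ₀⟩ := hlift φ₀ hg₁
  have hθ₀' : ∀ r, θ₀ (algebraMap R (Localization.Away g₁) r) = φ₀ r :=
    fun r => congrArg (fun t : R →ₐ[F] Ω => t r) hθ₀
  have h0' := h0 θ₀ hθ₀'
  -- the morphism in the chart
  obtain ⟨g, hg, ρ, hρ, Φ, hΦ⟩ := exists_local_away j g₁ D (φ₀.restrictScalars F)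
    θ₀ hθ₀ (eO ε Ω) (by
    rw [h0']; exact (eO_point j ε hj Ω).symm)
  have hg' : φ₀ g ≠ 0 := hg
  have hg0 : g ≠ 0 := by
    rintro rfl
    exact hg' (map_zero _)
  have hg₁0 : g₁ ≠ 0 := by
    rintro rfl
    exact hg₁ (map_zero _)
  have hdom : IsDomain (Localization.Away g₁) :=
    IsLocalization.isDomain_localization (powers_le_nonZeroDivisors_of_noZeroDivisors hg₁0)
  have hinjg : Function.Injective (algebraMap R (Localization.Away g)) :=
    IsLocalization.injective _ (powers_le_nonZeroDivisors_of_noZeroDivisors hg0)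
  have hρr : ∀ r : R, ρ (algebraMap R (Localization.Away g₁) r) =
      algebraMap R (Localization.Away g) r := fun r =>
    congrArg (fun t : R →ₐ[F] Localization.Away g => t r) hρ
  have hinjρ : Function.Injective ρ := by
    rw [injective_iff_map_eq_zero]
    intro w hw
    obtain ⟨n, a, ha⟩ := IsLocalization.Away.surj g₁ w
    have h2 := congrArg ρ ha
    rw [map_mul, hw, zero_mul, hρr] at h2
    have h3 : a = 0 := hinjg (by rw [← h2, map_zero])
    rw [h3, map_zero] at ha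
    have h4 : IsUnit (algebraMap R (Localization.Away g₁) g₁ ^ n) :=
      (IsLocalization.Away.algebraMap_isUnit g₁).pow _
    exact (h4.mul_left_eq_zero).mp ha
  -- a coordinate which is not identically zero
  obtain ⟨i₀, hi₀⟩ : ∃ i₀, Φ (u i₀) ≠ 0 := by
    by_contra hall
    push Not at hall
    apply h1
    have h2 := eq_eO ε u hu hε _ Φ hall
    apply eq_of_inj ρ hinjρ D 1
    rw [← hΦ, h2, ← SOm_comp, Category.assoc, hj, MonObj.comp_one, MonObj.comp_one]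
  -- numerators
  have hnum : ∀ i, ∃ (n : ℕ) (a : R),
      Φ (u i) * algebraMap R (Localization.Away g) g ^ n = algebraMap _ _ a :=
    fun i => IsLocalization.Away.surj g (Φ (u i))
  choose n a ha using hnum
  have ha₀ : a i₀ ≠ 0 := by
    intro h2
    have h3 := ha i₀
    rw [h2, map_zero] at h3
    have h4 : IsUnit (algebraMap R (Localization.Away g) g ^ n i₀) :=
      (IsLocalization.Away.algebraMap_isUnit g).pow _
    exact hi₀ ((h4.mul_left_eq_zero).mp h3)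
  -- points
  have hpt : ∀ (φ : R →ₐ[Ω] Ω) (θ : Localization.Away g₁ →ₐ[F] Ω),
      (∀ r, θ (algebraMap R (Localization.Away g₁) r) = φ r) → φ g ≠ 0 →
      ∃ ψ : B →ₐ[F] Ω, SOm ψ ≫ j = SOm θ ≫ D ∧ ∀ i, ψ (u i) * φ g ^ n i = φ (a i) := by
    intro φ θ hθ hgx
    obtain ⟨π', hπ'⟩ := ext_away g (φ.restrictScalars F) (Ne.isUnit hgx)
    have h3 : ∀ w : R, π' (algebraMap R (Localization.Away g) w) = φ w :=
      fun w => congrArg (fun t : R →ₐ[F] Ω => t w) hπ'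
    have h5 : π'.comp ρ = θ := by
      have h6 : (π'.comp ρ).toRingHom = θ.toRingHom := by
        apply IsLocalization.ringHom_ext (Submonoid.powers g₁)
        refine RingHom.ext fun w => ?_
        change π' (ρ (algebraMap R (Localization.Away g₁) w)) =
          θ (algebraMap R (Localization.Away g₁) w)
        rw [hρr, h3, hθ]
      exact AlgHom.ext fun w => congrArg (fun t : Localization.Away g₁ →+* Ω => t w) h6
    refine ⟨π'.comp Φ, ?_, fun i => ?_⟩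
    · rw [← SOm_comp, Category.assoc, hΦ, ← Category.assoc, SOm_comp, h5]
    · have h2 := congrArg π' (ha i)
      rw [map_mul, map_pow, h3, h3] at h2
      exact h2
  have ha0 : ∀ i, φ₀ (a i) = 0 := by
    intro i
    obtain ⟨φ, hφ, hφa⟩ := hpt φ₀ θ₀ hθ₀' hg'
    have h2 : φ = eO ε Ω := pt_inj j (by rw [hφ, h0']; exact (eO_point j ε hj Ω).symm)
    rw [← hφa i, h2]
    change algebraMap F Ω (ε (u i)) * _ = 0
    rw [hε i, map_zero, zero_mul]
  -- bounds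
  have hbd : ∀ b : R, ∃ C : Ω, C ≠ 0 ∧ ∀ (φ : R →ₐ[Ω] Ω) (r : Γ₀),
      r ≤ 1 → (∀ i, v (φ (w i)) ≤ r) → v (φ b - φ₀ b) ≤ v C * r := by
    intro b
    obtain ⟨C, hC, hb⟩ := bound v φ₀ w hadj hw0 b
    exact ⟨C, hC, fun φ r hr h2 => (hb φ r hr h2).1⟩
  set g₀ : Ω := φ₀ g with hg₀
  obtain ⟨G, hG, hGb⟩ := hbd g
  choose Cb hCb hCb' using fun i => hbd (a i)
  obtain ⟨E, hE, hEi⟩ := exists_max_fin v (fun i => Cb i / g₀ ^ n i)
    (fun i => div_ne_zero (hCb i) (pow_ne_zero _ hg'))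
  obtain ⟨δ, hδ, hδi⟩ := exists_min_fin v
    (fun i : Fin 3 => (![1, d / E, g₀ / G] : Fin 3 → Ω) i) (by
      intro i
      fin_cases i
      · exact one_ne_zero
      · exact div_ne_zero hd hE
      · exact div_ne_zero hg' hG)
  have hδ1 : v δ ≤ 1 := by simpa using hδi 0
  have hδ2 : v δ ≤ v (d / E) := by simpa using hδi 1
  have hδ3 : v δ ≤ v (g₀ / G) := by simpa using hδi 2
  have hEp : 0 < v E := (Valuation.pos_iff v).mpr hE
  have hGp : 0 < v G := (Valuation.pos_iff v).mpr hG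
  refine ⟨δ, a i₀, hδ, ha₀, ?_⟩
  intro φ hclose haφ θ hθ N hN
  obtain ⟨r, hρδ, hr⟩ : ∃ r : Γ₀, r < v δ ∧ ∀ i, v (φ (w i)) ≤ r := by
    rcases isEmpty_or_nonempty J with hJ | hJ
    · exact ⟨0, (Valuation.pos_iff v).mpr hδ, fun i => (hJ.false i).elim⟩
    · obtain ⟨i, hi⟩ := Finite.exists_max (fun i => v (φ (w i)))
      exact ⟨v (φ (w i)), hclose i, hi⟩
  have hρ1 : r ≤ 1 := (hρδ.trans_le hδ1).le
  have hgv : v (φ g) = v g₀ := by
    apply Valuation.map_eq_of_sub_lt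
    refine lt_of_le_of_lt (hGb φ r hρ1 hr) ?_
    refine lt_of_lt_of_le (mul_lt_mul_of_pos_left (hρδ.trans_le hδ3) hGp) ?_
    rw [map_div₀, mul_div_cancel₀ _ hGp.ne']
  have hgne : φ g ≠ 0 := by
    rw [← Valuation.ne_zero_iff v, hgv]
    exact (Valuation.ne_zero_iff v).mpr hg'
  obtain ⟨ψ, hψ, hψa⟩ := hpt φ θ hθ hgne
  rw [← hψ]
  refine hnear ψ (v E * r) ?_ ?_ ⟨i₀, ?_⟩ N hN
  · refine lt_of_lt_of_le (mul_lt_mul_of_pos_left (hρδ.trans_le hδ2) hEp) ?_
    rw [map_div₀, mul_div_cancel₀ _ hEp.ne']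
  · intro i
    have h4 := hCb' i φ r hρ1 hr
    rw [ha0 i, sub_zero, ← hψa i, map_mul, map_pow, hgv] at h4
    have h5 := hEi i
    have hgp : 0 < v g₀ ^ n i := pow_pos ((Valuation.pos_iff v).mpr hg') _
    rw [map_div₀, map_pow, div_le_iff₀ hgp] at h5
    have h6 : v (ψ (u i)) * v g₀ ^ n i ≤ (v E * r) * v g₀ ^ n i := by
      refine h4.trans ((mul_le_mul_left h5 r).trans (le_of_eq ?_))
      exact mul_right_comm _ _ _
    exact le_of_mul_le_mul_right h6 hgp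
  · intro h4
    have h5 := hψa i₀
    rw [h4, zero_mul] at h5
    exact haφ h5.symm

theorem pf_NTR : T_NTR := by
  intro F Ω _ _ _ Γ₀ _ v A _ _ _ R _ _ _ _ _ J _ u g φ₀ D hfin hadj hu hg h0 h1
  exact ntr_aux v A u g φ₀ D hfin hadj hu hg h0 h1

end Pool.Agent.H86.LA
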